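import Pool.Agent.Helper99.TW3.CntR
import Pool.Agent.Helper59.TW3.Q1
import Pool.Agent.Helper37.TW3.Mono
import Pool.Agent.Helper13.M.Fin4

/-!
# Project TW3, block W4: the analytic theorem with any number of rational branch points
-/

set_option autoImplicit false
set_option linter.unusedSectionVars false

namespace Pool.Agent.TW3

open VC IntermediateField NumberField IsDedekindDomain Filter Topology Pool.Agent.SC Pool.Agent.L
  Pool.Agent.M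
open Pool.Agent.HG (Pr nm IsOdd Ctx Gd Ev Od DatM Special BTR BadT StmtSel StmtMert StmtSplit
  StmtBTL StmtThue StmtG4 StmtG2 StmtG2M StmtBTLR ggM)
open Pool.Agent.Helper99.HG (CD pf Nm BT TA Sys)
open Pool.Agent.TW (TBt WJt StmtCountLt StmtINT2 StmtEV StmtBTRM GlT exists_glT exists_gl97
  exists_datN OptAt Lvl)

open scoped Classical in
/-- the options of `cdW` are options of `cdM` -/
theorem cdW_sub10 {k L : Type} [Field k] [NumberField k] [Field L] [NumberField L] [Algebra k L]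
    [IsGalois k L] {f : Polynomial k} (X : Ctx k L f) (hm : 0 < X.m)
    (hfin : {v : Pr k | ¬ Gd X.M v}.Finite) (ι : Type) (Vι : Pr k → L → Finset ι)
    (SG : Pr k → ι → ℕ → L → L → ℤˣ) (h : L → L → L) :
    ∃ V' : Pr k → Finset (Σ _ : L × ℤˣ, ι),
      (∀ p : Pr k, V' p ⊆ (X.cdM hm hfin ι Vι (ggM X hm SG h)).V p) ∧
      cdW X hm hfin ι Vι SG h = resV (X.cdM hm hfin ι Vι (ggM X hm SG h)) V' := by
  refine ⟨_, fun p => ?_, rfl⟩
  intro o ho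
  exact (Finset.mem_filter.1 ho).1

open scoped Classical in
/-- **BLOCK W4: the analytic theorem.** -/
theorem aNR (hCN : StmtCountNR) (hCL : StmtCountLt) (hG1 : StmtG1w) (hG3 : StmtG3w)
    (hBTRM : StmtBTRM) (hINT2 : StmtINT2) (hEV : StmtEV)
    (hNR : StmtNR) (hFB : StmtFB) (hFIN : StmtFIN) (hZ : StmtZ) (hLFT : StmtLFT) (hMU : StmtMU)
    (hQMD : StmtQMD) (hW3 : StmtW3) (hSel : StmtSel) (hMert : StmtMert)
    (hSplit : StmtSplit) (hBTL : StmtBTL) (hBTLR : StmtBTLR) (hThue : StmtThue) (hG4 : StmtG4)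
    (hG2 : StmtG2) (hG2M : StmtG2M) : StmtANR := by
  intro k K0 E U _ _ _ _ _ _ _ _ _ _ _ _ h r G R hO Zf
  have hclE : IsAlgClosed E := G.clE
  have halg : Algebra.IsAlgebraic k E := G.algE
  have hcE : CharZero E := charZero_of_injective_algebraMap (algebraMap k E).injective
  obtain ⟨zz, hzz⟩ := exists_zz13 hZ G
  by_cases hex : ∃ (c₀ : k) (Φ₀ : (E ≃ₐ[k] E) →* (U ≃+* U)), c₀ ≠ 0 ∧ Act (K0 := K0) r c₀ Φ₀
  swap
  · obtain ⟨N, hN, hMN, hZN, _⟩ := hINT2 k K0 E U h r G 1 Zf le_rfl zz hzz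
    refine ⟨N, ∅, hN, hMN, hZN, Set.finite_empty, fun ε hε => ⟨0, ?_⟩⟩
    refine Eventually.of_forall fun Y T hT hTc => ?_
    have hT0 : T = ∅ := by
      rw [Finset.eq_empty_iff_forall_notMem]
      intro c hc
      obtain ⟨h1, _, Φ, hΦ, _⟩ := hTc c hc
      exact hex ⟨c, Φ, h1, hΦ⟩
    rw [hT0, Finset.card_empty, Nat.cast_zero]
    positivity
  obtain ⟨c₀, Φ₀, hc₀, hA₀⟩ := hex
  obtain ⟨f, θ, Gl'⟩ := exists_glT hNR hFB G hc₀ hA₀
  obtain ⟨root, hroot, hsurj⟩ := exists_rat99 G hc₀ hA₀ Gl' hO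
  obtain ⟨b₀, hb₀⟩ := hO.ne
  have heven : Even f.natDegree := by rw [Gl'.deg]; exact hEV k K0 E U h r G
  have hdeg6 : 6 ≤ f.natDegree := by
    have h1 := hO.five
    rw [← Gl'.deg] at h1
    obtain ⟨j, hj⟩ := heven
    omega
  have hdeg : 4 ≤ f.natDegree := by omega
  have hNF : NumberField f.SplittingField := NumberField.of_module_finite k f.SplittingField
  have hGal : IsGalois k f.SplittingField := IsGalois.of_separable_splitting_field Gl'.sep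
  have hsplit : (f.map (algebraMap k f.SplittingField)).Splits := Polynomial.SplittingField.splits f
  let ι : f.SplittingField →ₐ[k] E := IsAlgClosed.lift
  have hne : Nonempty (Place E (NN E K0 2 (U := U))) := exists_pl13 (b := b₀)
  obtain ⟨θL, bt, hθL, hGl⟩ := exists_gl97 Gl' ι b₀
  have haL : ∀ b ∈ R, θL b = algebraMap k f.SplittingField (root b) := by
    intro b hb
    refine ι.injective (?_ : ι (θL b) = ι (algebraMap k f.SplittingField (root b)))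
    rw [hθL b (hO.br b hb), AlgHom.commutes]
    exact (hroot b hb).1.symm
  -- the places over the roots in `k`
  have hpl : ∀ a : k, ∃ b : Place E (L0 E K0 (U := U)), Polynomial.eval a f = 0 →
      b ∈ R ∧ root b = a := by
    intro a
    by_cases ha : Polynomial.eval a f = 0
    · obtain ⟨b, hb, hb'⟩ := hsurj a ha
      exact ⟨b, fun _ => ⟨hb, hb'⟩⟩
    · exact ⟨b₀, fun h => absurd h ha⟩
  choose pl hpl using hpl
  have hplne : ∀ a b : k, Polynomial.eval a f = 0 → Polynomial.eval b f = 0 → a ≠ b →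
      pl a ≠ pl b := by
    intro a b ha hb hab h1
    apply hab
    rw [← (hpl a ha).2, h1, (hpl b hb).2]
  -- the orbits of odd length
  have horb : ∀ a b : k, Polynomial.eval a f = 0 → Polynomial.eval b f = 0 → a ≠ b →
      ∀ σ : f.SplittingField ≃ₐ[k] f.SplittingField,
      ∃ ϑ ∈ f.rootSet f.SplittingField, ϑ ≠ algebraMap k f.SplittingField a ∧
        ϑ ≠ algebraMap k f.SplittingField b ∧ ∃ n : ℕ, Odd n ∧ (σ ^ n) ϑ = ϑ := by
    intro a b ha hb hab σ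
    obtain ⟨g, hg⟩ := exists_lift13 ι σ
    obtain ⟨b₃, hb₃, h3a, h3b, n, hn, hmv⟩ := hO.orb (pl a) (hpl a ha).1 (pl b) (hpl b hb).1
      (hplne a b ha hb hab) c₀ Φ₀ hc₀ hA₀ g
    have hθ3 : θL b₃ ∈ f.rootSet f.SplittingField := by
      rw [Polynomial.mem_rootSet]
      refine ⟨Gl'.sep.ne_zero, ι.injective (?_ : ι _ = ι 0)⟩
      rw [← Polynomial.aeval_algHom_apply, hθL b₃ hb₃, Gl'.root b₃ hb₃, map_zero]
    have hinj : ∀ b ∈ R, b₃ ≠ b → θL b₃ ≠ θL b := by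
      intro b hb hne h1
      apply hne
      refine Gl'.inj _ _ hb₃ (hO.br b hb) ?_
      rw [← hθL b₃ hb₃, h1, hθL b (hO.br b hb)]
    refine ⟨θL b₃, hθ3, ?_, ?_, n, hn, ?_⟩
    · have h1 := hinj _ (hpl a ha).1 h3a
      rwa [haL _ (hpl a ha).1, (hpl a ha).2] at h1
    · have h1 := hinj _ (hpl b hb).1 h3b
      rwa [haL _ (hpl b hb).1, (hpl b hb).2] at h1
    · have hpow : ∀ (N : ℕ) (z : f.SplittingField), (g ^ N) (ι z) = ι ((σ ^ N) z) := by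
        intro N
        induction N with
        | zero => intro z; rfl
        | succ N ih =>
          intro z
          rw [pow_succ, AlgEquiv.mul_apply, hg, ih, pow_succ, AlgEquiv.mul_apply]
      have h1 := (Gl'.act c₀ Φ₀ hc₀ hA₀ (g ^ n) b₃ b₃ hb₃ hb₃).1 hmv
      rw [← hθL b₃ hb₃, hpow] at h1
      exact ι.injective h1
  -- the number of places over a place
  obtain ⟨⟨K, hK⟩, hMU2⟩ := hMU k K0 E U h r G
  obtain ⟨Bs, hBs⟩ := Pool.Agent.HG.exists_B5 k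
  -- the sets `Q₁`
  have hQ1 : ∀ A B : Place E (L0 E K0 (U := U)),
      ∃ (T : Place E (L0 E K0 (U := U)) → Place E (L0 E K0 (U := U)) → E → Prop)
        (δ₁ C₁ : ℝ) (Bd Q : Set (Pr k)), Bd.Finite ∧ (A ∈ R → B ∈ R → A ≠ B →
        PairC (k := k) h r A B T ∧ 0 < δ₁ ∧
        (∀ v ∉ Bd, ∀ (O : ValuationSubring E) (F : E ≃ₐ[k] E) (p n : ℕ), DecPt v O F p n →
          v ∈ Q → ∃ b₁ b₂ d, T b₁ b₂ d ∧ F (θ b₁) = θ b₁ ∧ F (θ b₂) = θ b₂ ∧ F d = -d) ∧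
        ∀ x : ℕ, 2 ≤ x → |∑ v ∈ (Bs x).filter (· ∈ Q), (1 : ℝ) / nm v -
          δ₁ * Real.log (Real.log x)| ≤ C₁) := by
    intro A B
    by_cases hAB : A ∈ R ∧ B ∈ R ∧ A ≠ B
    · obtain ⟨hA, hB, hne⟩ := hAB
      obtain ⟨T, hT⟩ := hO.pair A hA B hB hne
      obtain ⟨δ₁, C₁, Bd, Q, h1, h2, h3, h4⟩ := exists_Q59 hW3 G hc₀ hA₀ Gl' hT Bs hBs
      exact ⟨T, δ₁, C₁, Bd, Q, h2, fun _ _ _ => ⟨hT, h1, h3, h4⟩⟩
    · exact ⟨fun _ _ _ => False, 0, 0, ∅, ∅, Set.finite_empty,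
        fun h1 h2 h3 => absurd ⟨h1, h2, h3⟩ hAB⟩
  choose TT δ₁ C₁ Bd Qp hBdf hQp using hQ1
  -- the density
  obtain ⟨ε₁, hε₁, hG3'⟩ := hG3 hMert hSplit k f.SplittingField f heven hdeg6 horb Bs hBs
    (fun a b => Qp (pl a) (pl b)) (by
      intro a b ha hb hab
      obtain ⟨_, h2, _, h4⟩ := hQp (pl a) (pl b) (hpl a ha).1 (hpl b hb).1 (hplne a b ha hb hab)
      exact ⟨δ₁ (pl a) (pl b), C₁ (pl a) (pl b), h2, h4⟩) K
  obtain ⟨m, Lm, hm1, hLf, hLg, hdens⟩ := hQMD k K0 E U h r G ε₁ hε₁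
  -- the finitely many actions
  obtain ⟨I, hI, c₁, Φ₁, hΦ₁, hcls⟩ := hFIN k K0 E U h r G m
  obtain ⟨N, hN, hMN, hZN, hint⟩ := hINT2 k K0 E U h r G m Zf hm1 zz hzz
  choose Bad hBad hint using fun i => hint (c₁ i) (Φ₁ i) (hΦ₁ i).1 (hΦ₁ i).2
  choose δ C₀ Bad' Q hδ hBad' hQ hsum using fun i => exists_Q13 hW3 G (hΦ₁ i).2 (m := m) Lm hLf hLg
    (hdens (c₁ i) (Φ₁ i) (hΦ₁ i).1 (hΦ₁ i).2) Bs hBs
  -- the excluded number
  have hBp : (⋃ A : R, ⋃ B : R, Bd A.1 B.1).Finite :=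
    Set.finite_iUnion fun A => Set.finite_iUnion fun B => hBdf A.1 B.1
  obtain ⟨M₁, hM₁, hM₁v⟩ := exists_M13
    (((Set.finite_iUnion hBad).union (Set.finite_iUnion hBad')).union hBp)
  obtain ⟨M₂, hM₂, hlft⟩ := hLFT k f.SplittingField E ι
  obtain ⟨X, hMX, hm, hfin⟩ := hG4 hThue k f.SplittingField f Gl'.sep hsplit hdeg (M₁ * M₂)
    (mul_ne_zero hM₁ hM₂)
  have hM₁X : M₁ ∣ X.M := (Dvd.intro _ rfl).trans hMX
  have hM₂X : M₂ ∣ X.M := (Dvd.intro_left _ rfl).trans hMX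
  have hXBad : ∀ i, ∀ v ∈ Bad i, ¬ Gd X.M v := fun i v hv =>
    hM₁v X.M hM₁X v (Or.inl (Or.inl (Set.mem_iUnion.2 ⟨i, hv⟩)))
  have hXBad' : ∀ i, ∀ v ∈ Bad' i, ¬ Gd X.M v := fun i v hv =>
    hM₁v X.M hM₁X v (Or.inl (Or.inr (Set.mem_iUnion.2 ⟨i, hv⟩)))
  have hXBd : ∀ A ∈ R, ∀ B ∈ R, ∀ v ∈ Bd A B, ¬ Gd X.M v := fun A hA B hB v hv =>
    hM₁v X.M hM₁X v (Or.inr (Set.mem_iUnion.2 ⟨⟨A, hA⟩, Set.mem_iUnion.2 ⟨⟨B, hB⟩, hv⟩⟩))
  -- the Frobenius elements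
  have hlift : ∀ v : Pr k, ∃ (O : ValuationSubring E) (F : E ≃ₐ[k] E) (p n : ℕ), Gd X.M v →
      DecPt v O F p n ∧ (∀ z : f.SplittingField, ι z ∈ O ↔
        (X.P v).valuation f.SplittingField z ≤ 1) ∧ ∀ z, F (ι z) = ι (X.F v z) := by
    intro v
    by_cases hv : Gd X.M v
    · obtain ⟨O, F, p, n, h1⟩ := hlft f X hM₂X v hv
      exact ⟨O, F, p, n, fun _ => h1⟩
    · exact ⟨⊤, 1, 0, 0, fun h1 => absurd h1 hv⟩
  choose O F p n hdec using hlift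
  -- the options
  let VS : I → Pr k → f.SplittingField → Set (Place E (NN E K0 2 (U := U))) := fun i v t =>
    {P | Gd X.M v ∧ OverPl (bt t) P ∧ ∃ Q : Place E (NN E K0 (2 ^ m) (U := U)), OverPl P Q ∧
      Moves (Φ₁ i (F v)) _ Q Q}
  have hVSsub : ∀ i v t, VS i v t ⊆ {P : Place E (NN E K0 2 (U := U)) | OverPl (bt t) P} :=
    fun i v t P hP => hP.2.1
  have hVSfin : ∀ i v t, (VS i v t).Finite := fun i v t => (hK (bt t)).1.subset (hVSsub i v t)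
  let Vι : I → Pr k → f.SplittingField → Finset (Place E (NN E K0 2 (U := U))) := fun i v t =>
    (hVSfin i v t).toFinset
  have hVιmem : ∀ i v t P, P ∈ Vι i v t ↔ P ∈ VS i v t := fun i v t P =>
    Set.Finite.mem_toFinset _
  have hVιK : ∀ i v t, (Vι i v t).card ≤ K := by
    intro i v t
    refine le_trans ?_ (hK (bt t)).2
    have h1 : (Vι i v t).card = (VS i v t).ncard := (Set.ncard_eq_toFinset_card _ _).symm
    rw [h1]
    have h2 := Set.ncard_le_ncard (hVSsub i v t) (hK (bt t)).1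
    rwa [← Nat.card_coe_set_eq {P : Place E (NN E K0 2 (U := U)) | OverPl (bt t) P}] at h2
  have hVι1 : ∀ i, ∀ v ∉ Q i, Gd X.M v → ∀ t, (Vι i v t).card ≤ 1 := by
    intro i v hvQ hgd t
    have hnQM : ¬ QM E K0 m (Φ₁ i (F v)) :=
      hQ i v (fun h1 => hXBad' i v h1 hgd) (O v) (F v) (p v) (n v) (hdec v hgd).1 hvQ
    rw [Finset.card_le_one]
    intro P hP P' hP'
    rw [hVιmem] at hP hP'
    obtain ⟨_, h1, R, h2, h3⟩ := hP
    obtain ⟨_, h1', R', h2', h3'⟩ := hP'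
    exact hMU2 (c₁ i) (Φ₁ i) (hΦ₁ i).1 (hΦ₁ i).2 m (F v) hm1 hnQM (bt t) P P' R R' h1 h1' h2 h2'
      h3 h3'
  -- the signs
  let SG : I → Pr k → Place E (NN E K0 2 (U := U)) → ℕ → f.SplittingField → f.SplittingField →
      ℤˣ := fun i v P N x x' => sgn (Φ₁ i (F v) ^ N) P (zz (bt x) (bt x'))
  -- the condition at two roots in `k`
  have hpair : ∀ i, ∀ a b : k, Polynomial.eval a f = 0 → Polynomial.eval b f = 0 → a ≠ b →
      ∀ v ∈ Qp (pl a) (pl b), Gd X.M v → ∃ ρ ∈ X.Ω, ∃ ρ' ∈ X.Ω, X.F v ρ = ρ ∧ X.F v ρ' = ρ' ∧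
        ρ ≠ ρ' ∧ ρ ≠ algebraMap k f.SplittingField a ∧ ρ ≠ algebraMap k f.SplittingField b ∧
        ρ' ≠ algebraMap k f.SplittingField a ∧ ρ' ≠ algebraMap k f.SplittingField b ∧
        ∀ P ∈ Vι i v (algebraMap k f.SplittingField a),
          ∀ P' ∈ Vι i v (algebraMap k f.SplittingField b), SG i v P 1 ρ ρ' ≠ SG i v P' 1 ρ ρ' := by
    intro i a b ha hb hab v hv hgd
    have hA := (hpl a ha).1
    have hB := (hpl b hb).1
    obtain ⟨hT, _, h3, _⟩ := hQp (pl a) (pl b) hA hB (hplne a b ha hb hab)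
    obtain ⟨hd1, _, hd3⟩ := hdec v hgd
    obtain ⟨ρ, hρ, ρ', hρ', e1, e2, e3, e4, e5, e6, e7, e8⟩ := cond59 G Gl' (hΦ₁ i).1 (hΦ₁ i).2
      (hGl X (c₁ i) (Φ₁ i) (hΦ₁ i).1 (hΦ₁ i).2) hθL hzz (hO.br _ hA) (hO.br _ hB) hT hd3 hm1
      (h3 v (fun h4 => hXBd _ hA _ hB v h4 hgd) (O v) (F v) (p v) (n v) hd1 hv)
    rw [haL _ hA, (hpl a ha).2] at e4 e6
    rw [haL _ hB, (hpl b hb).2] at e5 e7
    refine ⟨ρ, hρ, ρ', hρ', e1, e2, e3, e4, e5, e6, e7, fun P hP P' hP' => ?_⟩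
    rw [hVιmem] at hP hP'
    obtain ⟨_, h5, h6⟩ := hP
    obtain ⟨_, h5', h6'⟩ := hP'
    have hbtA : bt (algebraMap k f.SplittingField a) = pl a := by
      have h7 := (hGl X (c₁ i) (Φ₁ i) (hΦ₁ i).1 (hΦ₁ i).2).bt_θ (pl a) (hO.br _ hA)
      rwa [haL _ hA, (hpl a ha).2] at h7
    have hbtB : bt (algebraMap k f.SplittingField b) = pl b := by
      have h7 := (hGl X (c₁ i) (Φ₁ i) (hΦ₁ i).1 (hΦ₁ i).2).bt_θ (pl b) (hO.br _ hB)
      rwa [haL _ hB, (hpl b hb).2] at h7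
    rw [hbtA] at h5
    rw [hbtB] at h5'
    exact e8 P P' h5 h6 h5' h6'
  -- the relations
  choose H hH hh hg using fun i => hG1 hSel k f.SplittingField f X hdeg hm hfin
    (Place E (NN E K0 2 (U := U))) (Vι i) (SG i)
  have hHI : Finite (Σ i, H i) := inferInstance
  have hHF : Fintype (Σ i, H i) := Fintype.ofFinite _
  obtain ⟨R₀, hR₀⟩ : ∃ R₀ : Finset (Fin X.m), R₀ =
      R.image (fun b => X.cmp hm (algebraMap k f.SplittingField (root b))) := ⟨_, rfl⟩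
  have hR₀m : ∀ j ∈ R₀, ∃ b ∈ R, j = X.cmp hm (algebraMap k f.SplittingField (root b)) := by
    intro j hj
    rw [hR₀, Finset.mem_image] at hj
    obtain ⟨b, hb, hb'⟩ := hj
    exact ⟨b, hb, hb'.symm⟩
  let D : (Σ i, H i) → CD X.m ℤˣ := fun j =>
    cdW X hm hfin (Place E (NN E K0 2 (U := U))) (Vι j.1) (SG j.1) (hh j.1 j.2)
  have hG3D : ∀ j : Σ i, H i, Sys (D j).P (D j).nm ∧ (∃ K' : ℕ, ∀ p, ((D j).V p).card ≤ K') ∧
      (∀ j₀ ∈ R₀, Special (D j) j₀) ∧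
      (∀ J : Finset (Fin X.m), (∃ j₀ ∈ R₀, J = {j₀}) ∨ TA (D j) J ∨ TBt (D j) J) ∧
      ∀ j₀ ∈ R₀, ∀ J : Finset (Fin X.m), j₀ ∈ J → J ≠ {j₀} → TBt (D j) J := by
    rintro ⟨i, j⟩
    obtain ⟨g1, g2, g3, g4, g5⟩ := hG3' X hm hfin (Place E (NN E K0 2 (U := U))) (Vι i) (SG i)
      (hh i j) (hVιK i) (Q i) (hVι1 i) (δ i) (C₀ i) (hδ i) (hsum i) (hpair i)
    refine ⟨g1, g2, fun j₀ hj₀ => ?_, fun J => ?_, fun j₀ hj₀ => ?_⟩
    · obtain ⟨b, hb, rfl⟩ := hR₀m j₀ hj₀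
      exact g3 _ (hroot b hb).2
    · rcases g4 J with ⟨a, ha, hJ⟩ | h4 | h4
      · refine Or.inl ⟨_, ?_, hJ⟩
        rw [hR₀, Finset.mem_image]
        exact ⟨pl a, (hpl a ha).1, by rw [(hpl a ha).2]⟩
      · exact Or.inr (Or.inl h4)
      · exact Or.inr (Or.inr h4)
    · obtain ⟨b, hb, rfl⟩ := hR₀m j₀ hj₀
      exact g5 _ (hroot b hb).2
  obtain ⟨Nc, hNc⟩ := Pool.Agent.HG.cls_count (k := k) hSel X.hM X.unif
    (fun p v hp hpM hpv z hz => X.isOdd_iff hp hpM hpv hz)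
  refine ⟨N, {v : Pr k | ¬ Gd X.M v}, hN, hMN, hZN, hfin, fun ε hε => ?_⟩
  obtain ⟨B, hB2, hcnt⟩ := count99R hCN hCL D R₀
    ⟨X.cmp hm (algebraMap k f.SplittingField (root b₀)), by
      rw [hR₀, Finset.mem_image]
      exact ⟨b₀, hb₀, rfl⟩⟩
    (fun j => (hG3D j).1) (fun j => (hG3D j).2.1)
    (fun j => by
      obtain ⟨V', hV', e⟩ := cdW_sub10 X hm hfin (Place E (NN E K0 2 (U := U))) (Vι j.1)
        (SG j.1) (hh j.1 j.2)
      change BT (cdW X hm hfin (Place E (NN E K0 2 (U := U))) (Vι j.1) (SG j.1) (hh j.1 j.2))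
      rw [e]
      exact resV_bt hV' (hG2M hG2 hBTL hMert k f.SplittingField f X hm hfin _ (Vι j.1) _))
    (fun j => (hG3D j).2.2.1)
    (fun j j₀ hj₀ => by
      obtain ⟨b, hb, rfl⟩ := hR₀m j₀ hj₀
      obtain ⟨V', hV', e⟩ := cdW_sub10 X hm hfin (Place E (NN E K0 2 (U := U))) (Vι j.1)
        (SG j.1) (hh j.1 j.2)
      change BTR (cdW X hm hfin (Place E (NN E K0 2 (U := U))) (Vι j.1) (SG j.1) (hh j.1 j.2)) _
      rw [e]
      exact resV_btr hV' (hBTRM hBTLR hSel k f.SplittingField f X (root b) (hroot b hb).2 hm hfin _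
        (Vι j.1) _))
    (fun j => (hG3D j).2.2.2.1) (fun j => (hG3D j).2.2.2.2)
    (ε := ε / (Nc + 1)) (by positivity)
  refine ⟨B, ?_⟩
  filter_upwards [hcnt] with Y hY
  intro T hT hTc
  have hY0 : (0 : ℝ) ≤ Y := Nat.cast_nonneg Y
  have h1 := hNc (fun c : k => ∃ Φ : (E ≃ₐ[k] E) →* (U ≃+* U), Act (K0 := K0) r c Φ ∧
      ∀ b₀ ∈ R, ∃ v : Pr k, v ∉ {v : Pr k | ¬ Gd X.M v} ∧ B < nm v ∧ IsOdd v c ∧
        ¬ OptAt c Φ N b₀ v) Y
    (ε / (Nc + 1) * Y) (by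
      intro SS hSS
      let S : ∀ j : Σ i, H i, Finset (Finset (D j).P) := fun j => SS.filter fun A =>
        ∃ τ : (D j).P → (D j).O, BadT (D j) A τ ∧
          ∀ j₀ ∈ R₀, ∃ p ∈ pf (D j) A, (D j).cmp (τ p) ≠ j₀ ∧ B ≤ (D j).nm p
      have hS : ∀ j, ∀ A ∈ S j, Nm (D j) A ≤ Y ∧ ∃ τ : (D j).P → (D j).O, BadT (D j) A τ ∧
          ∀ j₀ ∈ R₀, ∃ p ∈ pf (D j) A, (D j).cmp (τ p) ≠ j₀ ∧ B ≤ (D j).nm p := by
        intro j A hA
        obtain ⟨h2, h3⟩ := Finset.mem_filter.1 hA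
        exact ⟨(hSS A h2).1, h3⟩
      have hcov : SS ⊆ Finset.univ.biUnion fun j : Σ i, H i => (S j : Finset (Finset (Pr k))) := by
        intro A hA
        obtain ⟨_, c, hc, ⟨Φ, hΦ, hall⟩, hAS⟩ := hSS A hA
        obtain ⟨i, hi⟩ := hcls c Φ hc hΦ
        obtain ⟨δ', hδ'⟩ := hint i c Φ hc hΦ hi
        obtain ⟨D', t, P, hD, hP, hopt⟩ := exists_datN (hGl X (c₁ i) (Φ₁ i) (hΦ₁ i).1 (hΦ₁ i).2)
          (hXBad i) hc hδ' (O := O) (F := F) (p' := p) (n := n) hdec hAS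
        obtain ⟨j, u, hj⟩ := hg i c A D' t P hD (by
          intro v hv
          rw [hVιmem]
          exact ⟨((hAS v).1 hv).1, hP v hv⟩)
        refine Finset.mem_biUnion.2 ⟨⟨i, j⟩, Finset.mem_univ _, Finset.mem_filter.2 ⟨hA, _, hj, ?_⟩⟩
        intro j₀ hj₀
        obtain ⟨b, hb, hbj⟩ := hR₀m j₀ hj₀
        obtain ⟨v, hvg, hvB, hvodd, hvopt⟩ := hall b hb
        have hvA : v ∈ A := (hAS v).2 ⟨not_not.1 hvg, hvodd⟩
        have hpf : pf (D ⟨i, j⟩) A = A := by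
          unfold Pool.Agent.Helper99.HG.pf
          refine Finset.filter_true_of_mem fun v hv => ?_
          intro h1
          exact (hfin.mem_toFinset.1 h1) ((hAS v).1 hv).1
        refine ⟨v, ?_, ?_, hvB.le⟩
        · rw [hpf]
          exact hvA
        · intro h2
          have h3 : X.cmp hm (t v) = j₀ := h2
          rw [hbj] at h3
          have h4 := (Pool.Agent.HG.cmp_root X hm (hroot b hb).2 (hD.t_mem v hvA)).1 h3
          apply hvopt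
          have h5 := hopt v hvA
          rw [h4, ← haL b hb] at h5
          rwa [(hGl X (c₁ i) (Φ₁ i) (hΦ₁ i).1 (hΦ₁ i).2).bt_θ b (hO.br b hb)] at h5
      have h2 : (SS.card : ℝ) ≤ ∑ j : Σ i, H i, ((S j).card : ℝ) := by
        exact_mod_cast (Finset.card_le_card hcov).trans Finset.card_biUnion_le
      exact h2.trans (hY S hS)) T hT hTc
  refine h1.trans ?_
  have h3 : 0 ≤ ε / (Nc + 1) * Y := by positivity
  have h4 : (Nc : ℝ) * (ε / (Nc + 1) * Y) ≤ (Nc + 1) * (ε / (Nc + 1) * Y) :=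
    mul_le_mul_of_nonneg_right (by linarith) h3
  refine h4.trans (le_of_eq ?_)
  field_simp

end Pool.Agent.TW3
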